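import Pool.Agent.Helper70.KN.Goals4

/-!
Project KN, part 4 (MP_20ee5e_ag), packet RW
-/

set_option autoImplicit false

open MeasureTheory Set

namespace Pool.Agent.Helper24.KN.RW

open Pool.Agent.Helper70.KN

variable {N : ℕ}

theorem integral_le_toReal {α : Type*} [MeasurableSpace α] {μ : Measure α} {f : α → ℝ} (hf : Integrable f μ) :
    ∫ a, f a ∂μ ≤ (∫⁻ a, ENNReal.ofReal (f a) ∂μ).toReal := by
  rw [integral_eq_lintegral_pos_part_sub_lintegral_neg_part hf]
  have : 0 ≤ (∫⁻ a, ENNReal.ofReal (-f a) ∂μ).toReal := ENNReal.toReal_nonneg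
  linarith

theorem measurable_zr (J : Finset (Fin N)) : Measurable (zr J : (Fin N → ℝ) → Fin N → ℝ) := by
  refine measurable_pi_iff.2 fun i => ?_
  by_cases h : i ∈ J
  · simp only [zr, if_pos h]
    exact measurable_const
  · simp only [zr, if_neg h]
    exact measurable_pi_apply i

theorem inner_eq (N : ℕ) (hN : 0 < N) (σ : ℝ) :
    ∫⁻ s in Ioo (0 : ℝ) (1 / 2), ENNReal.ofReal ((max 0 (1 - s * σ)) ^ (N - 1)) =
      ENNReal.ofReal (kp N σ / N) := by
  have hN' : (N : ℝ) ≠ 0 := by exact_mod_cast hN.ne'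
  have hc : Continuous fun s : ℝ => (max 0 (1 - s * σ)) ^ (N - 1) := by fun_prop
  have hi : IntegrableOn (fun s : ℝ => (max 0 (1 - s * σ)) ^ (N - 1)) (Ioo 0 (1 / 2)) volume :=
    (hc.integrableOn_Icc (a := 0) (b := 1 / 2)).mono_set Ioo_subset_Icc_self
  have h1 : kp N σ / N = ∫ s in Ioo (0 : ℝ) (1 / 2), (max 0 (1 - s * σ)) ^ (N - 1) := by
    unfold kp
    rw [mul_div_cancel_left₀ _ hN', intervalIntegral.integral_of_le (by norm_num),
      integral_Ioc_eq_integral_Ioo]
  rw [h1, ofReal_integral_eq_lintegral_ofReal hi]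
  exact Filter.Eventually.of_forall fun s => by positivity

theorem t (hMF : S_MF) (hDM : S_DM) (hFX : S_FX) (hRV : S_RV) : S_RW := by
  intro N V L ω α β hcut hβ hk i j hji
  have hconv : Convenient V := hcut.1
  have hω : 0 < ω := hcut.2.2.1
  have hN : 0 < N := Fin.pos i
  have hN2 : 2 ≤ N := by
    by_contra hlt
    have : N = 1 := by omega
    subst this
    exact hji (Subsingleton.elim j i)
  have hNr : (0 : ℝ) < N := by exact_mod_cast hN
  have hN1 : (0 : ℝ) < (N : ℝ) - 1 := by
    have : (2 : ℝ) ≤ N := by exact_mod_cast hN2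
    linarith
  obtain ⟨hm, hf, -⟩ := hMF N V hconv {j}
  obtain ⟨-, hf0, -⟩ := hMF N V hconv ∅
  set R : Set (Fin N → ℝ) := {x | x ∈ cyl V ∅ ∧ x j < 1 / 2 ∧ ∀ k, k ≠ i → k ≠ j → x j < x k} with hR
  have hRf : volume R ≠ ⊤ := by
    apply ne_top_of_le_ne_top hf0
    exact measure_mono fun x hx => hx.1
  set K : Finset (Fin N) := (Finset.univ.erase i).erase j with hK
  -- the slope
  have hdm : ∀ k : Fin N, Measurable fun x : Fin N → ℝ => dm L k (zr {j} x) := fun k =>
    ((hDM N V L ω hcut k).2.2.2.1).comp (measurable_zr {j})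
  have hdb : ∀ (k : Fin N) (x : Fin N → ℝ), 0 ≤ dm L k (zr {j} x) ∧ dm L k (zr {j} x) ≤ ω := fun k x =>
    (hDM N V L ω hcut k).2.2.1 (zr {j} x)
  have hsm : Measurable fun x : Fin N → ℝ => sl L ω i j x := by
    unfold sl
    exact measurable_const.add (Finset.measurable_sum K fun k _ => hdm k)
  have hs0 : ∀ x : Fin N → ℝ, 0 ≤ sl L ω i j x := fun x =>
    add_nonneg hω.le (Finset.sum_nonneg fun k _ => (hdb k x).1)
  haveI hfin : IsFiniteMeasure (volume.restrict (cyl V {j})) := ⟨by
    rw [Measure.restrict_apply_univ]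
    exact hf.lt_top⟩
  have hdi : ∀ k : Fin N, Integrable (fun x : Fin N → ℝ => dm L k (zr {j} x))
      (volume.restrict (cyl V {j})) := by
    intro k
    refine Integrable.of_bound (hdm k).aestronglyMeasurable ω ?_
    refine Filter.Eventually.of_forall fun x => ?_
    rw [Real.norm_eq_abs, abs_of_nonneg (hdb k x).1]
    exact (hdb k x).2
  have hsi : Integrable (fun x : Fin N → ℝ => sl L ω i j x) (volume.restrict (cyl V {j})) := by
    unfold sl
    exact (integrable_const ω).add (integrable_finset_sum K fun k _ => hdi k)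
  -- the integral of the slope
  have hW0 : ∀ J : Finset (Fin N), 0 ≤ W V J := fun J => ENNReal.toReal_nonneg
  have hint : ∀ k ∈ K, ∫ x in cyl V {j}, dm L k (zr {j} x) ≤ W V {j, k} / ((N : ℝ) - 1) := by
    intro k hkK
    have hkj : j ≠ k := by
      rw [hK, Finset.mem_erase] at hkK
      exact fun h => hkK.1 h.symm
    have h1 := integral_le_toReal (hdi k)
    have h2 := hFX N V L ω hcut j k hkj
    have h3 : 0 ≤ W V {j, k} / ((N : ℝ) - 1) := div_nonneg (hW0 _) hN1.le
    calc ∫ x in cyl V {j}, dm L k (zr {j} x)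
        ≤ (∫⁻ x in cyl V {j}, ENNReal.ofReal (dm L k (zr {j} x))).toReal := h1
      _ ≤ (ENNReal.ofReal (W V {j, k} / ((N : ℝ) - 1))).toReal :=
          ENNReal.toReal_mono ENNReal.ofReal_ne_top h2
      _ = W V {j, k} / ((N : ℝ) - 1) := ENNReal.toReal_ofReal h3
  have hsl : ∫ x in cyl V {j}, sl L ω i j x ≤
      ω * W V {j} + 1 / ((N : ℝ) - 1) * ∑ k ∈ K, W V {j, k} := by
    unfold sl
    rw [integral_add (integrable_const ω) (integrable_finset_sum K fun k _ => hdi k),
      integral_finset_sum K fun k _ => hdi k, setIntegral_const, smul_eq_mul, Finset.mul_sum]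
    refine add_le_add (le_of_eq ?_) (Finset.sum_le_sum fun k hkK => ?_)
    · rw [mul_comm]
      rfl
    · refine (hint k hkK).trans (le_of_eq ?_)
      ring
  -- Tonelli
  have hjm : Measurable fun p : ℝ × (Fin N → ℝ) =>
      ENNReal.ofReal ((max 0 (1 - p.1 * sl L ω i j p.2)) ^ (N - 1)) := by
    have h1 : Measurable fun p : ℝ × (Fin N → ℝ) => sl L ω i j p.2 := hsm.comp measurable_snd
    exact ((measurable_const.max (measurable_const.sub (measurable_fst.mul h1))).pow_const _).ennreal_ofReal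
  have hTon : ∫⁻ s in Ioo (0 : ℝ) (1 / 2), ∫⁻ x in cyl V {j},
      ENNReal.ofReal ((max 0 (1 - s * sl L ω i j x)) ^ (N - 1)) =
      ∫⁻ x in cyl V {j}, ENNReal.ofReal (kp N (sl L ω i j x) / N) := by
    rw [lintegral_lintegral_swap hjm.aemeasurable]
    refine lintegral_congr fun x => ?_
    exact inner_eq N hN _
  have hlow : ∫⁻ x in cyl V {j}, ENNReal.ofReal ((α - β * sl L ω i j x) / N) ≤ volume R := by
    refine le_trans ?_ (hRV N V L ω hcut i j hji)
    rw [hTon]
    refine lintegral_mono fun x => ?_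
    apply ENNReal.ofReal_le_ofReal
    exact div_le_div_of_nonneg_right (hk _ (hs0 x)) hNr.le
  have hli : Integrable (fun x : Fin N → ℝ => (α - β * sl L ω i j x) / N) (volume.restrict (cyl V {j})) :=
    ((integrable_const α).sub (hsi.const_mul β)).div_const _
  have h5 : ∫ x in cyl V {j}, (α - β * sl L ω i j x) / N ≤ (volume R).toReal :=
    (integral_le_toReal hli).trans (ENNReal.toReal_mono hRf hlow)
  refine le_trans ?_ h5
  rw [integral_div, integral_sub (integrable_const α) (hsi.const_mul β), integral_const_mul,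
    setIntegral_const, smul_eq_mul]
  apply div_le_div_of_nonneg_right _ hNr.le
  have h6 := mul_le_mul_of_nonneg_left hsl hβ
  have h7 : volume.real (cyl V {j}) = W V {j} := rfl
  rw [h7]
  have h8 : β / ((N : ℝ) - 1) * ∑ k ∈ K, W V {j, k} = β * (1 / ((N : ℝ) - 1) * ∑ k ∈ K, W V {j, k}) := by
    ring
  rw [h8]
  nlinarith [h6]

end Pool.Agent.Helper24.KN.RW
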