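import Pool.Agent.Helper70.KN.Goals3

/-! # Project KN, part 3: goal Y1X -/

open MeasureTheory Set

namespace Pool.Agent.Helper24.KN.Y1X

open Pool.Agent.Helper70.KN

theorem t (hWD : S_WD) (hSL : S_SLW) : S_Y1X := by
  intro N V ω θ hF i h h0 hωh
  have hT := hWD N V ω θ hF
  have hω : 0 < ω := hF.2.2.1
  have hN : 1 ≤ N := by have := i.2; omega
  have hN0 : (N : ℝ) ≠ 0 := by
    have : (0 : ℝ) < N := by exact_mod_cast hN
    exact this.ne'
  have hc : h ≤ 1 / ω := by
    rw [le_div_iff₀ hω]
    linarith
  have hset : cyl V (∅ : Finset (Fin N)) ∩ {x | x i < h} = part V h {i} := by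
    ext x
    simp only [cyl, part, mem_inter_iff, mem_setOf_eq, Finset.notMem_empty, false_imp_iff,
      implies_true, true_and, Finset.mem_singleton, forall_eq]
    have : zr (∅ : Finset (Fin N)) x = x := by
      funext j
      simp [zr]
    rw [this]
    tauto
  have key := hSL N V (1 / ω) hT i h h0 hc
  rw [hset] at key
  refine le_trans (le_of_eq ?_) key
  have hint : (∫ t in (0 : ℝ)..h, (1 - t / (1 / ω)) ^ (N - 1)) = kap N ω h / N := by
    have hd : ∀ t ∈ uIcc 0 h, HasDerivAt (fun t : ℝ => -(1 - ω * t) ^ N / (N * ω))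
        ((1 - t / (1 / ω)) ^ (N - 1)) t := by
      intro t _
      have h1 : HasDerivAt (fun t : ℝ => 1 - ω * t) (0 - ω * 1) t :=
        (hasDerivAt_const t (1 : ℝ)).sub ((hasDerivAt_id t).const_mul ω)
      have h2 := ((h1.pow N).neg).div_const (N * ω)
      have h3 : -((N : ℝ) * (1 - ω * t) ^ (N - 1) * (0 - ω * 1)) / (N * ω) =
          (1 - t / (1 / ω)) ^ (N - 1) := by
        have h4 : t / (1 / ω) = ω * t := by rw [div_div_eq_mul_div, div_one, mul_comm]
        rw [h4]
        field_simp
        ring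
      rw [h3] at h2
      exact h2
    rw [intervalIntegral.integral_eq_sub_of_hasDerivAt hd]
    · unfold kap
      rw [mul_zero, sub_zero, one_pow]
      field_simp
      ring
    · apply Continuous.intervalIntegrable
      fun_prop
  rw [hint]

end Pool.Agent.Helper24.KN.Y1X
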